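import Pool.Agent.H51.MFL.S

/-!
# EVX: evaluation at commuting lifts
-/

set_option autoImplicit false

namespace Pool.MFL

open Module MvPolynomial

/-- Coefficients are central. -/
theorem map_central {R U : Type} [CommRing R] [Ring U] [Algebra R U] (f : Polynomial R)
    (u : Polynomial U) : f.map (algebraMap R U) * u = u * f.map (algebraMap R U) := by
  induction f using Polynomial.induction_on' with
  | add f g hf hg => rw [Polynomial.map_add, add_mul, mul_add, hf, hg]
  | monomial n a =>
    rw [Polynomial.map_monomial]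
    induction u using Polynomial.induction_on' with
    | add f g hf hg => rw [add_mul, mul_add, hf, hg]
    | monomial m v =>
      rw [Polynomial.monomial_mul_monomial, Polynomial.monomial_mul_monomial, Algebra.commutes,
        add_comm]

/-- EVX. -/
theorem t_evx (hC : CMXStmt) : EVXStmt := by
  intro R L σ τ J _ _ _ _ _ b hA e he P hP
  have h0 : liX b e (0 : LmR (Polynomial R) σ τ) = 0 := by
    unfold liX
    simp
  have hcomm : ∀ i j, liX b e (P i) * liX b e (P j) = liX b e (P j) * liX b e (P i) := by
    intro i j
    have h1 := (hC R L σ τ b hA e he).2 (P i) (P j)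
    rw [hP i j, h0, sub_eq_zero] at h1
    exact h1
  obtain ⟨T, hTd⟩ : ∃ T : Set (Polynomial (UniversalEnvelopingAlgebra R L)), T =
      Set.range (fun f : Polynomial R =>
        f.map (algebraMap R (UniversalEnvelopingAlgebra R L))) ∪
      Set.range (fun j => liX b e (P j)) := ⟨_, rfl⟩
  have hT : ∀ a ∈ T, ∀ b ∈ T, a * b = b * a := by
    intro x hx y hy
    rw [hTd] at hx hy
    rcases hx with ⟨f, rfl⟩ | ⟨i, rfl⟩
    · exact map_central f y
    · rcases hy with ⟨f, rfl⟩ | ⟨j, rfl⟩
      · exact (map_central f _).symm
      · exact hcomm i j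
  have hT1 : ∀ f : Polynomial R, f.map (algebraMap R (UniversalEnvelopingAlgebra R L)) ∈
      Subring.closure T := fun f => Subring.subset_closure (by
    rw [hTd]
    exact Or.inl ⟨f, rfl⟩)
  have hT2 : ∀ j, liX b e (P j) ∈ Subring.closure T := fun j => Subring.subset_closure (by
    rw [hTd]
    exact Or.inr ⟨j, rfl⟩)
  letI : CommRing (Subring.closure T) := Subring.closureCommRingOfComm hT
  let c : Polynomial R →+* Subring.closure T :=
    (Polynomial.mapRingHom (algebraMap R (UniversalEnvelopingAlgebra R L))).codRestrict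
      (Subring.closure T) hT1
  let ev0 : MvPolynomial J (Polynomial R) →+* Subring.closure T :=
    eval₂Hom c (fun j => ⟨liX b e (P j), hT2 j⟩)
  refine ⟨(Subring.closure T).subtype.comp ev0, ⟨fun f => ?_, fun j => ?_⟩, fun F G => ?_⟩
  · show ((ev0 (C f) : Subring.closure T) : Polynomial (UniversalEnvelopingAlgebra R L)) = _
    have h1 : ev0 (C f) = c f := eval₂_C _ _ _
    rw [h1]
    rfl
  · show ((ev0 (X j) : Subring.closure T) : Polynomial (UniversalEnvelopingAlgebra R L)) = _
    have h1 : ev0 (X j) = ⟨liX b e (P j), hT2 j⟩ := eval₂_X _ _ _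
    rw [h1]
  · rw [← map_mul, mul_comm, map_mul]

end Pool.MFL
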