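import Pool.Agent.H51.MFL.S

/-!
# CT3: substitution with denominators
-/

set_option autoImplicit false

namespace Pool.MFL

open MvPolynomial Finset

section ct3

variable {S B ι : Type} [CommRing S] [CommRing B] [Fintype ι]

/-- The homogenization. -/
noncomputable def hT (θ : S →+* B) (Y : ι → B) : MvPolynomial ι S →+* Polynomial B :=
  eval₂Hom ((Polynomial.C).comp θ) (fun i => Polynomial.C (Y i) * Polynomial.X)

theorem reflect_fsum {σ : Type} (s : Finset σ) (f : σ → Polynomial B) (K : ℕ) :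
    Polynomial.reflect K (∑ a ∈ s, f a) = ∑ a ∈ s, Polynomial.reflect K (f a) := by
  classical
  induction s using Finset.induction_on with
  | empty => simp
  | insert a s ha ih => rw [Finset.sum_insert ha, Finset.sum_insert ha, Polynomial.reflect_add, ih]

theorem hT_rhs (θ : S →+* B) (Y : ι → B) (c : B) (g : MvPolynomial ι S) {K : ℕ}
    (hg : g.totalDegree ≤ K) : Polynomial.eval c (Polynomial.reflect K (hT θ Y g)) =
      ∑ α ∈ g.support, θ (coeff α g) * c ^ (K - α.degree) * ∏ i, Y i ^ α i := by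
  have h1 : hT θ Y g = ∑ α ∈ g.support,
      Polynomial.C (θ (coeff α g) * ∏ i, Y i ^ α i) * Polynomial.X ^ α.degree := by
    show eval₂ ((Polynomial.C).comp θ) (fun i => Polynomial.C (Y i) * Polynomial.X) g = _
    rw [eval₂_eq']
    refine Finset.sum_congr rfl fun α _ => ?_
    simp only [mul_pow, Finset.prod_mul_distrib, RingHom.comp_apply]
    rw [Finset.prod_pow_eq_pow_sum, map_mul, map_prod, Finsupp.degree_eq_sum]
    simp only [map_pow]
    ring
  rw [h1, reflect_fsum, Polynomial.eval_finsetSum]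
  refine Finset.sum_congr rfl fun α hα => ?_
  have h2 : α.degree ≤ K := by
    refine le_trans ?_ hg
    have := le_totalDegree hα
    rwa [Finsupp.degree_eq_sum, ← Finsupp.sum_fintype α (fun _ n => n) (fun _ => rfl)]
  rw [Polynomial.reflect_C_mul_X_pow, Polynomial.revAt_le h2, Polynomial.eval_mul,
    Polynomial.eval_C, Polynomial.eval_pow, Polynomial.eval_X]
  ring

/-- A linear form. -/
theorem hT_lin (θ : S →+* B) (Y : ι → B) (c q : B) (b : S) (N : ι → S)
    (h : c * q = ∑ i, θ (N i) * Y i + c * θ b) :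
    (hT θ Y (C b + ∑ i, C (N i) * X i)).natDegree ≤ 1 ∧
    Polynomial.eval c (Polynomial.reflect 1 (hT θ Y (C b + ∑ i, C (N i) * X i))) = c * q := by
  have h1 : hT θ Y (C b + ∑ i, C (N i) * X i) = Polynomial.C (θ b) +
      Polynomial.C (∑ i, θ (N i) * Y i) * Polynomial.X ^ 1 := by
    show eval₂Hom _ _ _ = _
    simp only [map_add, map_sum, map_mul, coe_eval₂Hom, eval₂_C, eval₂_X, RingHom.comp_apply,
      Finset.sum_mul, pow_one]
    congr 1
    refine Finset.sum_congr rfl fun i _ => ?_
    ring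
  rw [h1]
  constructor
  · refine (Polynomial.natDegree_add_le _ _).trans (max_le ?_ ?_)
    · rw [Polynomial.natDegree_C]
      exact Nat.zero_le _
    · exact Polynomial.natDegree_C_mul_X_pow_le _ _
  · rw [Polynomial.reflect_add, Polynomial.reflect_C, Polynomial.reflect_C_mul_X_pow,
      Polynomial.revAt_le (le_refl 1), h, Polynomial.eval_add, Polynomial.eval_mul,
      Polynomial.eval_mul, Polynomial.eval_C, Polynomial.eval_C, Polynomial.eval_pow,
      Polynomial.eval_pow, Polynomial.eval_X]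
    ring

theorem hT_pow (c d : B) (P : Polynomial B) (h : P.natDegree ≤ 1)
    (h' : Polynomial.eval c (Polynomial.reflect 1 P) = d) (n : ℕ) :
    (P ^ n).natDegree ≤ n ∧ Polynomial.eval c (Polynomial.reflect n (P ^ n)) = d ^ n := by
  induction n with
  | zero => simp
  | succ n ih =>
    obtain ⟨h1, h2⟩ := ih
    rw [pow_succ, pow_succ, Polynomial.reflect_mul _ _ h1 h, Polynomial.eval_mul, h2, h']
    exact ⟨(Polynomial.natDegree_mul_le).trans (add_le_add h1 h), rfl⟩

theorem hT_prod {J : Type} (c : B) (P : J → Polynomial B) (d : J → B)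
    (h : ∀ j, (P j).natDegree ≤ 1)
    (h' : ∀ j, Polynomial.eval c (Polynomial.reflect 1 (P j)) = d j) (β : J → ℕ) (s : Finset J) :
    (∏ j ∈ s, P j ^ β j).natDegree ≤ ∑ j ∈ s, β j ∧
      Polynomial.eval c (Polynomial.reflect (∑ j ∈ s, β j) (∏ j ∈ s, P j ^ β j)) =
        ∏ j ∈ s, d j ^ β j := by
  classical
  induction s using Finset.induction_on with
  | empty => simp
  | insert a s ha ih =>
    obtain ⟨h1, h2⟩ := ih
    obtain ⟨g1, g2⟩ := hT_pow c (d a) (P a) (h a) (h' a) (β a)
    rw [Finset.prod_insert ha, Finset.prod_insert ha, Finset.sum_insert ha,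
      Polynomial.reflect_mul _ _ g1 h1, Polynomial.eval_mul, g2, h2]
    exact ⟨(Polynomial.natDegree_mul_le).trans (add_le_add g1 h1), rfl⟩

end ct3

/-- CT3. -/
theorem t_ct3 : CT3Stmt := by
  intro R₀ S B ι J _ _ _ _ ρ θ Δ N b q Y hq F K g hF hg
  classical
  obtain ⟨Lf, hL⟩ : ∃ Lf : J → MvPolynomial ι S, Lf = fun j => C (b j) + ∑ i, C (N i j) * X i :=
    ⟨_, rfl⟩
  rw [← hL] at hg
  have hLd : ∀ j, (Lf j).totalDegree ≤ 1 := by
    intro j
    rw [hL]
    refine (totalDegree_add _ _).trans (max_le ?_ ?_)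
    · rw [totalDegree_C]
      exact Nat.zero_le _
    · refine totalDegree_finsetSum_le fun i _ => (totalDegree_mul _ _).trans ?_
      rw [totalDegree_C, zero_add]
      rcases subsingleton_or_nontrivial S with hs | hs
      · have : (X i : MvPolynomial ι S) = 0 := Subsingleton.elim _ _
        rw [this, totalDegree_zero]
        exact Nat.zero_le _
      · rw [totalDegree_X]
  have hdeg : ∀ β ∈ F.support, (β.sum fun _ n => n) ≤ K := fun β hβ =>
    (le_totalDegree hβ).trans hF
  -- the polynomial as a sum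
  have hg' : g = ∑ β ∈ F.support, C (ρ (coeff β F)) * ∏ j ∈ β.support, Lf j ^ β j := by
    rw [hg, eval₂_eq]
    rfl
  have hgK : g.totalDegree ≤ K := by
    rw [hg']
    refine totalDegree_finsetSum_le fun β hβ => (totalDegree_mul _ _).trans ?_
    rw [totalDegree_C, zero_add]
    refine (totalDegree_finset_prod _ _).trans (le_trans ?_ (hdeg β hβ))
    refine Finset.sum_le_sum fun j _ => (totalDegree_pow _ _).trans ?_
    have := Nat.mul_le_mul_left (β j) (hLd j)
    rwa [mul_one] at this
  rw [← hT_rhs θ Y (θ Δ) g hgK, eval₂_eq, hg', map_sum, reflect_fsum, Polynomial.eval_finsetSum,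
    Finset.mul_sum]
  refine Finset.sum_congr rfl fun β hβ => ?_
  have hK := hdeg β hβ
  have hlin := fun j => hT_lin θ Y (θ Δ) (q j) (b j) (fun i => N i j) (hq j)
  have hprod := hT_prod (θ Δ) (fun j => hT θ Y (Lf j)) (fun j => θ Δ * q j)
    (fun j => by rw [hL]; exact (hlin j).1) (fun j => by rw [hL]; exact (hlin j).2) β β.support
  obtain ⟨e1, e2⟩ := hprod
  have e3 : hT θ Y (C (ρ (coeff β F)) * ∏ j ∈ β.support, Lf j ^ β j) =
      Polynomial.C (θ (ρ (coeff β F))) * ∏ j ∈ β.support, (hT θ Y (Lf j)) ^ β j := by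
    rw [map_mul, map_prod]
    simp only [map_pow]
    congr 1
    show eval₂ _ _ (C _) = _
    rw [eval₂_C]
    rfl
  obtain ⟨n, hn⟩ : ∃ n, n = ∑ j ∈ β.support, β j := ⟨_, rfl⟩
  have hK' : n ≤ K := by rw [hn]; exact hK
  rw [← hn] at e1 e2
  have e4 : K = (K - n) + n := by omega
  rw [e3]
  have e5 : Polynomial.reflect K (Polynomial.C (θ (ρ (coeff β F))) *
      ∏ j ∈ β.support, (hT θ Y (Lf j)) ^ β j) =
      Polynomial.reflect (K - n) (Polynomial.C (θ (ρ (coeff β F)))) *
        Polynomial.reflect n (∏ j ∈ β.support, (hT θ Y (Lf j)) ^ β j) := by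
    rw [← Polynomial.reflect_mul _ _ (by rw [Polynomial.natDegree_C]; exact Nat.zero_le _) e1,
      ← e4]
  rw [e5, Polynomial.eval_mul, e2, Polynomial.reflect_C]
  simp only [mul_pow, Finset.prod_mul_distrib]
  rw [Finset.prod_pow_eq_pow_sum, ← hn]
  simp only [Polynomial.eval_mul, Polynomial.eval_C, Polynomial.eval_pow, Polynomial.eval_X,
    RingHom.comp_apply]
  have e6 : θ Δ ^ K = θ Δ ^ (K - n) * θ Δ ^ n := by rw [← pow_add, ← e4]
  rw [e6]
  ring

end Pool.MFL
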